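import Pool.Agent.Helper66.PD.Stmts

/-! Row `KEY`: every colour class is without alternating cycles (second source). -/

set_option autoImplicit false

namespace Pool.Agent.Helper91.PD

open Pool.Agent.Helper66.PD

/-- names of the elements above `x` in the bag at `p` -/
noncomputable def tr {P : Type} [PartialOrder P] {w : ℕ} (l r : P → ℕ) (e : ℕ → P → Fin (w + 1))
    (p : ℕ) (x : P) : Finset (Fin (w + 1)) := by
  classical
  exact Finset.univ.filter (fun i => ∃ b, x ≤ b ∧ l b ≤ p ∧ p ≤ r b ∧ e p b = i)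

theorem tr_use {P : Type} [PartialOrder P] {w : ℕ} {l r : P → ℕ} {e : ℕ → P → Fin (w + 1)}
    (he : ∀ p x y, l x ≤ p → p ≤ r x → l y ≤ p → p ≤ r y → e p x = e p y → x = y)
    {p : ℕ} {x x' b : P} (h : tr l r e p x = tr l r e p x') (hb : x ≤ b) (h1 : l b ≤ p)
    (h2 : p ≤ r b) : x' ≤ b := by
  classical
  have h3 : e p b ∈ tr l r e p x := by
    unfold tr
    exact Finset.mem_filter.2 ⟨Finset.mem_univ _, b, hb, h1, h2, rfl⟩
  rw [h] at h3
  unfold tr at h3
  obtain ⟨-, b', h4, h5, h6, h7⟩ := Finset.mem_filter.1 h3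
  rw [← he p b' b h5 h6 h1 h2 h7]
  exact h4

/-- the deepest level with a common node -/
def lev {P : Type} (w : ℕ) (l : P → ℕ) (A : ℕ → ℕ → ℕ) (x y : P) : ℕ :=
  Nat.findGreatest (fun ℓ => A ℓ (l x) = A ℓ (l y)) (w + 1)

theorem down {P : Type} {m : ℕ} {l r : P → ℕ} {A E C : ℕ → ℕ → ℕ} (hH : Hier P m l r A E C)
    {p q : ℕ} (hp : p < m) (hq : q < m) {j : ℕ} (h : A j p = A j q) :
    ∀ i, i ≤ j → A i p = A i q := by
  induction j with
  | zero =>
    intro i hi
    obtain rfl : i = 0 := by omega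
    exact h
  | succ j ih =>
    intro i hi
    have h1 := ((hH.child j p q hp hq).1 h).1
    rcases Nat.lt_or_ge i (j + 1) with h2 | h2
    · exact ih h1 i (by omega)
    · obtain rfl : i = j + 1 := by omega
      exact h

theorem st_KEY (hCRO : ST_CRO) (hLOC : ST_LOC) : ST_KEY := by
  classical
  intro P _ _ w h m l r H A E C e h1 hR hH hlong he
  have hlm : ∀ x, l x < m := fun x => lt_of_le_of_lt (hR.lr x) (hR.rm x)
  have h2h : 0 < 2 * h := by omega
  refine ⟨fun x y => (⟨lev w l A x y, Nat.lt_succ_of_le (Nat.findGreatest_le _)⟩,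
    decide (C (lev w l A x y) (l x) < C (lev w l A x y) (l y)), false,
    fun i => ⟨C i (l x) % (2 * h), Nat.mod_lt _ h2h⟩,
    fun i => (tr l r e (A i (l x)) x, tr l r e (E i (l x)) x), fun _ => ∅), ?_⟩
  rintro ⟨cL, cF, cG, cC, cT, cU⟩ n t hn hper hAlt
  -- the data
  set x : ℕ → P := fun k => (t k).1 with hx
  set y : ℕ → P := fun k => (t k).2 with hy
  have hxy : ∀ k, x k ≤ y (k + 1) := fun k => (hAlt k).2.2
  have hne : ∀ k, ¬ x k ≤ y k := fun k => (hAlt k).1.1
  have hcol := fun k => (hAlt k).1.2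
  simp only [Prod.mk.injEq] at hcol
  have hL : ∀ k, lev w l A (x k) (y k) = (cL : ℕ) := fun k => congrArg Fin.val (hcol k).1
  have hF : ∀ k, decide (C (lev w l A (x k) (y k)) (l (x k)) <
      C (lev w l A (x k) (y k)) (l (y k))) = cF := fun k => (hcol k).2.1
  have hC : ∀ k k' i, i ≤ w → C i (l (x k)) % (2 * h) = C i (l (x k')) % (2 * h) := by
    intro k k' i hi
    have e1 := congrFun (hcol k).2.2.2.1 ⟨i, Nat.lt_succ_of_le hi⟩
    have e2 := congrFun (hcol k').2.2.2.1 ⟨i, Nat.lt_succ_of_le hi⟩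
    exact congrArg Fin.val (e1.trans e2.symm)
  have hTA : ∀ k k' i, i ≤ w + 1 → tr l r e (A i (l (x k))) (x k) =
      tr l r e (A i (l (x k'))) (x k') := by
    intro k k' i hi
    have e1 := congrFun (hcol k).2.2.2.2.1 ⟨i, by omega⟩
    have e2 := congrFun (hcol k').2.2.2.2.1 ⟨i, by omega⟩
    exact congrArg Prod.fst (e1.trans e2.symm)
  have hTE : ∀ k k' i, i ≤ w + 1 → tr l r e (E i (l (x k))) (x k) =
      tr l r e (E i (l (x k'))) (x k') := by
    intro k k' i hi
    have e1 := congrFun (hcol k).2.2.2.2.1 ⟨i, by omega⟩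
    have e2 := congrFun (hcol k').2.2.2.2.1 ⟨i, by omega⟩
    exact congrArg Prod.snd (e1.trans e2.symm)
  have hLw : (cL : ℕ) ≤ w + 1 := Nat.le_of_lt_succ cL.2
  -- pairs share the nodes up to the level
  have hsame : ∀ k i, i ≤ (cL : ℕ) → A i (l (x k)) = A i (l (y k)) := by
    intro k i hi
    have h3 : A (lev w l A (x k) (y k)) (l (x k)) = A (lev w l A (x k) (y k)) (l (y k)) := by
      have := Nat.findGreatest_spec (P := fun ℓ => A ℓ (l (x k)) = A ℓ (l (y k)))
        (Nat.zero_le (w + 1)) (hH.zero _ _ (hlm _) (hlm _))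
      exact this
    rw [hL k] at h3
    exact down hH (hlm _) (hlm _) h3 i hi
  -- no element over the left or right end
  have hend : ∀ k i, i ≤ w + 1 → A i (l (x k)) = A i (l (x (k + 1))) →
      ∀ b, x k ≤ b → b ≤ y (k + 1) → ¬ (l b ≤ A i (l (x k)) ∧ A i (l (x k)) ≤ r b) ∧
        ¬ (l b ≤ E i (l (x k)) ∧ E i (l (x k)) ≤ r b) := by
    intro k i hi hA b hb1 hb2
    constructor
    · rintro ⟨h3, h4⟩
      have h5 := hTA k (k + 1) i hi
      rw [← hA] at h5
      exact hne (k + 1) ((tr_use he h5 hb1 h3 h4).trans hb2)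
    · rintro ⟨h3, h4⟩
      have h5 := hTE k (k + 1) i hi
      rw [← hH.eqE i _ _ (hlm _) (hlm _) hA] at h5
      exact hne (k + 1) ((tr_use he h5 hb1 h3 h4).trans hb2)
  have hHlt : ∀ z, H z < h := hR.lt
  have hloc : ∀ k i, i ≤ w + 1 → A i (l (x k)) = A i (l (x (k + 1))) →
      A i (l (x k)) = A i (l (y (k + 1))) ∧
      C i (l (x k)) < C i (l (y (k + 1))) + h ∧ C i (l (y (k + 1))) < C i (l (x k)) + h := by
    intro k i hi hA
    obtain ⟨h3, h4, h5⟩ := hLOC P w h m l r H A E C hR hH i (x k) (y (k + 1)) (hxy k)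
      (hend k i hi hA)
    have h6 := hHlt (x k)
    have h7 := hHlt (y (k + 1))
    exact ⟨h3, by omega, by omega⟩
  -- congruent and near is equal
  have hmod : ∀ a b : ℕ, a % (2 * h) = b % (2 * h) → a < b → a + 2 * h ≤ b := by
    intro a b h3 h4
    have h5 : (2 * h) ∣ b - a := (Nat.modEq_iff_dvd' h4.le).1 h3
    have h6 := Nat.le_of_dvd (by omega) h5
    omega
  -- all elements are in one node of every level up to `cL`
  have hall : ∀ i, i ≤ (cL : ℕ) → ∀ k, A i (l (x k)) = A i (l (x (k + 1))) := by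
    intro i
    induction i with
    | zero => exact fun _ k => hH.zero _ _ (hlm _) (hlm _)
    | succ i ih =>
      intro hi k
      have h3 := ih (by omega) k
      obtain ⟨h4, h5, h6⟩ := hloc k i (by omega) h3
      have h7 := ((hH.child i _ _ (hlm _) (hlm _)).1 (hsame (k + 1) (i + 1) hi)).2
      have h8 := hC k (k + 1) i (by omega)
      have h9 : C i (l (x k)) = C i (l (x (k + 1))) := by
        rcases lt_trichotomy (C i (l (x k))) (C i (l (x (k + 1)))) with h10 | h10 | h10
        · have := hmod _ _ h8 h10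
          omega
        · exact h10
        · have := hmod _ _ h8.symm h10
          omega
      exact (hH.child i _ _ (hlm _) (hlm _)).2 ⟨h3, h9⟩
  rcases Nat.lt_or_ge (cL : ℕ) (w + 1) with hLlt | hLge
  · -- the level is at most `w`
    have hab : ∀ k, C cL (l (x k)) ≠ C cL (l (y k)) := by
      intro k h3
      have h4 : A ((cL : ℕ) + 1) (l (x k)) = A ((cL : ℕ) + 1) (l (y k)) :=
        (hH.child cL _ _ (hlm _) (hlm _)).2 ⟨hsame k cL le_rfl, h3⟩
      have h5 : lev w l A (x k) (y k) < (cL : ℕ) + 1 := by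
        rw [hL k]
        exact Nat.lt_succ_self _
      exact Nat.findGreatest_is_greatest h5 (by omega) h4
    have hnear := fun k => hloc k cL (by omega) (hall cL le_rfl k)
    have hcong := fun k => hC k (k + 1) cL (by omega)
    have hflag : ∀ k, decide (C cL (l (x k)) < C cL (l (y k))) = cF := by
      intro k
      have := hF k
      rw [hL k] at this
      exact this
    have hperx : ∀ k, x (k + n) = x k := by
      intro k
      simp only [hx, hper k]
    rcases Bool.eq_false_or_eq_true cF with hc | hc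
    · -- `x` left of `y`
      have hlt : ∀ k, C cL (l (x k)) < C cL (l (y k)) := by
        intro k
        have := hflag k
        rw [hc] at this
        exact of_decide_eq_true this
      have hanti : ∀ k, C cL (l (x (k + 1))) ≤ C cL (l (x k)) := by
        intro k
        by_contra h3
        push Not at h3
        have h4 := hmod _ _ (hcong k) h3
        have h5 := hlt (k + 1)
        have h6 := (hnear k).2.2
        omega
      have hanti2 : Antitone (fun k => C cL (l (x k))) := antitone_nat_of_succ_le hanti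
      have heq : C cL (l (x 0)) = C cL (l (x 1)) := by
        have h3 : C cL (l (x (0 + n))) ≤ C cL (l (x 1)) := hanti2 (show 1 ≤ 0 + n by omega)
        rw [hperx 0] at h3
        exact le_antisymm h3 (hanti 0)
      have hA1 : A ((cL : ℕ) + 1) (l (x 0)) = A ((cL : ℕ) + 1) (l (x 1)) :=
        (hH.child cL _ _ (hlm _) (hlm _)).2 ⟨hall cL le_rfl 0, heq⟩
      have hmem := hH.mem ((cL : ℕ) + 1) (l (x 0)) (hlm _)
      set p := E ((cL : ℕ) + 1) (l (x 0)) with hp
      have hpy : p < l (y 1) := by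
        by_contra h3
        push Not at h3
        have h4 : A ((cL : ℕ) + 1) p = A ((cL : ℕ) + 1) (l (x 0)) :=
          hH.node _ _ _ (hlm _) (by omega) le_rfl
        have h5 := (hH.child cL _ _ hmem.2.2 (hlm _)).1 h4
        have h6 := hH.mono cL (l (y 1)) p h3 hmem.2.2 (by
          rw [h5.1]; exact (hnear 0).1.symm)
        have h7 := hlt 1
        omega
      obtain ⟨b, hb1, hb2, hb3, hb4⟩ := hCRO P w h m l r H hR (x 0) (y 1) p (hxy 0)
        (Or.inl ⟨hmem.2.1, hpy⟩)
      exact (hend 0 ((cL : ℕ) + 1) (by omega) hA1 b hb1 hb2).2 ⟨hb3, hb4⟩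
    · -- `x` right of `y`
      have hlt : ∀ k, C cL (l (y k)) < C cL (l (x k)) := by
        intro k
        have := hflag k
        rw [hc] at this
        have h3 := of_decide_eq_false this
        exact lt_of_le_of_ne (not_lt.1 h3) (hab k).symm
      have hmono : ∀ k, C cL (l (x k)) ≤ C cL (l (x (k + 1))) := by
        intro k
        by_contra h3
        push Not at h3
        have h4 := hmod _ _ (hcong k).symm h3
        have h5 := hlt (k + 1)
        have h6 := (hnear k).2.1
        omega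
      have hmono2 : Monotone (fun k => C cL (l (x k))) := monotone_nat_of_le_succ hmono
      have heq : C cL (l (x 0)) = C cL (l (x 1)) := by
        have h3 : C cL (l (x 1)) ≤ C cL (l (x (0 + n))) := hmono2 (show 1 ≤ 0 + n by omega)
        rw [hperx 0] at h3
        exact le_antisymm (hmono 0) h3
      have hA1 : A ((cL : ℕ) + 1) (l (x 0)) = A ((cL : ℕ) + 1) (l (x 1)) :=
        (hH.child cL _ _ (hlm _) (hlm _)).2 ⟨hall cL le_rfl 0, heq⟩
      have hmem := hH.mem ((cL : ℕ) + 1) (l (x 0)) (hlm _)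
      set p := A ((cL : ℕ) + 1) (l (x 0)) with hp
      have hpm : p < m := lt_of_le_of_lt hmem.1 (hlm _)
      have hpy : l (y 1) < p := by
        by_contra h3
        push Not at h3
        have h4 : A ((cL : ℕ) + 1) p = A ((cL : ℕ) + 1) (l (x 0)) :=
          hH.node _ _ _ (hlm _) le_rfl (by omega)
        have h5 := (hH.child cL _ _ hpm (hlm _)).1 h4
        have h6 := hH.mono cL p (l (y 1)) h3 (hlm _) (by
          rw [h5.1]; exact (hnear 0).1)
        have h7 := hlt 1
        omega
      rcases Nat.lt_or_ge p (l (x 0)) with h8 | h8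
      · obtain ⟨b, hb1, hb2, hb3, hb4⟩ := hCRO P w h m l r H hR (x 0) (y 1) p (hxy 0)
          (Or.inr ⟨hpy.le, h8⟩)
        exact (hend 0 ((cL : ℕ) + 1) (by omega) hA1 b hb1 hb2).1 ⟨hb3, hb4⟩
      · have h9 := hR.lr (x 0)
        exact (hend 0 ((cL : ℕ) + 1) (by omega) hA1 (x 0) le_rfl (hxy 0)).1
          ⟨h8, by omega⟩
  · -- the deepest level
    have hcL : (cL : ℕ) = w + 1 := le_antisymm hLw hLge
    have h3 := hall (w + 1) hcL.ge 0
    have h4 := hlong (x 0) (l (x 0)) (hlm _) le_rfl (hR.lr _)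
    have h5 := hH.mem (w + 1) (l (x 0)) (hlm _)
    have h6 := hR.lr (x 0)
    exact (hend 0 (w + 1) le_rfl h3 (x 0) le_rfl (hxy 0)).1 ⟨h4.1, by omega⟩

end Pool.Agent.Helper91.PD
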